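import Pool.Agent.Helper40.AM.C6b

/-!
# LW, block W3b: the mean of a continuous function of the normalized error is a measurable function of the series
-/

open MeasureTheory Real Set Filter Topology unitInterval

set_option autoImplicit false

namespace Pool.Agent.Helper40.LW

open Pool.Agent.Helper22.AE
open Pool.Agent.Helper22.AC (cntc)

/-- the normalised error (no power) is jointly measurable in the series and the radius -/
theorem err1_joint {H₀ : ℝ → ℝ} (h0 : ContDiff ℝ 2 H₀) (hp : Function.Periodic H₀ (2 * π)) {s : ℕ → ℝ}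
    (hs : Summable (fun l : ℕ => (l : ℝ) ^ 2 * |s l|)) (c : ℝ × ℝ) :
    Measurable (fun q : (ℕ → I × I) × ℝ => (cntc (Hx H₀ s q.1) c q.2 - area (Hx H₀ s q.1) * q.2 ^ 2) / sqrt q.2) := by
  have h := Pool.Agent.Helper40.AM.err_joint h0 hp hs c 1
  simpa using h

/-- W3b (`lim_meas` with `φ` instead of the power) -/
theorem lim_measF {H₀ : ℝ → ℝ} (h0 : ContDiff ℝ 2 H₀) (hp : Function.Periodic H₀ (2 * π)) {s : ℕ → ℝ}
    (hs : Summable (fun l : ℕ => (l : ℝ) ^ 2 * |s l|)) (c : ℝ × ℝ) {X : ℝ} (hX : 1 ≤ X) {φ : ℝ → ℝ} (hφ : Continuous φ) :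
    Measurable (fun x : ℕ → I × I => ∫ R in Icc X (2 * X), φ ((cntc (Hx H₀ s x) c R - area (Hx H₀ s x) * R ^ 2) / sqrt R)) := by
  have h1 := (hφ.measurable.comp (err1_joint h0 hp hs c)).stronglyMeasurable
  exact (h1.integral_prod_right' (ν := volume.restrict (Icc X (2 * X)))).measurable

end Pool.Agent.Helper40.LW
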